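import Pool.Agent.R906.DTFin

/-!
MP_214325_an, Q1: the multiplier curve can factor through a quadratic polynomial although the
operator is not a polynomial of a Hill operator.
-/

namespace Pool.Agent.Results.MP_214325_an.DarbouxCurveNotHill

open Polynomial Pool.Agent.R906.DT
open scoped ContDiff

theorem result : ∃ (b : ℝ) (p : ℕ → ℝ → ℂ) (R : ℂ[X]) (Δ : ℂ → ℂ),
    0 < b ∧ IsCoeff 4 b p ∧ R.Monic ∧ R.natDegree = 2 ∧ Differentiable ℂ Δ ∧
    (∀ lam : ℂ, ∃ u, IsFund 4 p lam u) ∧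
    (∀ (lam : ℂ) (u : Fin 4 → ℝ → ℂ), IsFund 4 p lam u → ∀ r : ℂ, r ≠ 0 →
      ((r • (1 : Matrix (Fin 4) (Fin 4) ℂ) - floquet 4 b u).det = 0 ↔
        (((R - C lam).roots).map fun w => r + r⁻¹ - Δ w).prod = 0)) ∧
    ∀ S : ℂ[X], S.Monic → S.natDegree = 2 → ∀ q : ℝ → ℂ, ContDiff ℝ 2 q →
      ¬ ∀ y : ℝ → ℂ, ContDiff ℝ ∞ y → ∀ x, opL 4 p y x = polyHill S q y x := by
  have hdeg : (X ^ 2 + X : ℂ[X]).natDegree = 2 := by compute_degree!
  have hmon : (X ^ 2 + X : ℂ[X]).Monic := by monicity!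
  refine ⟨2 * Real.pi, P, X ^ 2 + X, Dl, by positivity, isCoeff, hmon, hdeg, Dl_diff,
    isFund_exists, ?_, no_hill⟩
  intro lam u hu r hr
  rw [det_iff hu, Multiset.prod_eq_zero_iff, Multiset.mem_map]
  have hne : (X ^ 2 + X - C lam : ℂ[X]) ≠ 0 := by
    intro h0
    have h1 : (X ^ 2 + X - C lam : ℂ[X]).coeff 2 = 0 := by rw [h0]; simp
    simp [coeff_X, coeff_C] at h1
  constructor
  · rintro ⟨Y, hY⟩
    obtain ⟨w, hw, hD⟩ := flo_imp hr hY
    refine ⟨w, ?_, by rw [hD, sub_self]⟩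
    rw [mem_roots hne]
    simp [IsRoot, hw]
  · rintro ⟨w, hw, hD⟩
    rw [mem_roots hne] at hw
    simp only [IsRoot, eval_sub, eval_add, eval_pow, eval_X, eval_C] at hw
    exact imp_flo hr (sub_eq_zero.mp hw) (sub_eq_zero.mp hD)

end Pool.Agent.Results.MP_214325_an.DarbouxCurveNotHill
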